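import Pool.Agent.EPL.ColB

/-!
# MP_52ec5c_gt: p.l. Einstein metrics on complexes of regular and of pyramidal tetrahedra
-/

namespace Pool.Agent.Results.MP_52ec5c_gt.OneApex

open Pool.Agent.EPL

/-- Let `O` be a set of vertices of a finite pure three-dimensional simplicial complex such that
every 3-simplex has at most one vertex in `O`, every edge which meets `O` lies in `q` 3-simplices,
and every other edge lies in `r₀` 3-simplices which do not meet `O` and in `r₁` 3-simplices which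
meet `O`.  If `q ≥ 2`, `r₀ ≤ 5` and `r₀ arccos (1/3) + r₁ π / 2 > 2 π`, then the complex has an
Einstein metric of type I. -/
theorem result (V : Type) [Fintype V] [DecidableEq V] (T : Finset (Finset V))
    (hT : ∀ σ ∈ T, σ.card = 4) (O : Finset V) (hO : ∀ σ ∈ T, (σ ∩ O).card ≤ 1) (q r₀ r₁ : ℕ)
    (h1 : ∀ u v : V, IsEdge T u v → (u ∈ O ∨ v ∈ O) → deg T u v = q)
    (h2 : ∀ u v : V, IsEdge T u v → u ∉ O → v ∉ O →
      (T.filter (fun σ => u ∈ σ ∧ v ∈ σ ∧ σ ∩ O = ∅)).card = r₀ ∧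
      (T.filter (fun σ => u ∈ σ ∧ v ∈ σ ∧ σ ∩ O ≠ ∅)).card = r₁)
    (hq : 2 ≤ q) (hr : r₀ ≤ 5)
    (hr' : 2 * Real.pi < r₀ * Real.arccos (1 / 3) + r₁ * (Real.pi / 2)) :
    ∃ z : Sym2 V → ℝ, EinsteinI T z := by
  obtain ⟨x, _, _, h⟩ := colB hT hO h1 h2 hq hr hr'
  exact ⟨_, h⟩

end Pool.Agent.Results.MP_52ec5c_gt.OneApex
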