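import Pool.Agent.EPL.ColA

/-!
# MP_52ec5c_gt: p.l. Einstein metrics on complexes with a colouring of the vertices
-/

namespace Pool.Agent.Results.MP_52ec5c_gt.TwoColours

open Pool.Agent.EPL

/-- Let the vertices of a finite pure three-dimensional simplicial complex be coloured with two
colours (the vertices in `W` and the other ones) such that every 3-simplex has two vertices of
each colour.  If every edge whose ends have the same colour lies in `p` 3-simplices and every
other edge lies in `s` 3-simplices, then the complex has an Einstein metric of type I. -/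
theorem result (V : Type) [Fintype V] [DecidableEq V] (T : Finset (Finset V))
    (hT : ∀ σ ∈ T, σ.card = 4) (W : Finset V) (hW : ∀ σ ∈ T, (σ ∩ W).card = 2) (p s : ℕ)
    (h1 : ∀ u v : V, IsEdge T u v → (u ∈ W ↔ v ∈ W) → deg T u v = p)
    (h2 : ∀ u v : V, IsEdge T u v → ¬(u ∈ W ↔ v ∈ W) → deg T u v = s) :
    ∃ z : Sym2 V → ℝ, EinsteinI T z := by
  obtain ⟨x, _, _, h⟩ := colA hT hW h1 h2
  exact ⟨_, h⟩

end Pool.Agent.Results.MP_52ec5c_gt.TwoColours
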